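import Mathlib
import Pool.Agent.H91.Edge.Dist4

open Complex Filter Topology MeasureTheory

namespace Pool.Agent.H5.EBJ

open Pool.Agent.H91.Edge
open Pool.Agent.H89.EdgeBasic (Hyp)

/-- the rate statement for one family -/
def RateP (N i : ℕ) (P : ℕ → Polynomial ℂ) (γ : ℝ) : Prop :=
  ∃ Z : Set ℝ, dimH Z ≤ ENNReal.ofReal (2 * γ) ∧ ∀ t : ℝ, t ∉ Z → ∀ l : ℂ, l ≠ 0 →
    Tendsto (fun x : ℕ => Yf N i P x t) atTop (𝓝 l) →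
      ∃ C : ℝ, ∀ x : ℕ, 2 ≤ x → ‖Yf N i P x t - l‖ ≤ C * Real.log x ^ (-γ)

theorem behaviour {κ : Type} [Countable κ] (N i b : κ → ℕ) (P : κ → ℕ → Polynomial ℂ)
    (H : ∀ k, Hyp (N k) (i k) (b k) (P k))
    (HR : ∀ k, ∀ γ : ℝ, 0 ≤ γ → γ < 1/2 → RateP (N k) (i k) (P k) γ) :
    ∃ E : κ → ℝ → ℂ,
      (∀ γ : ℝ, 0 ≤ γ → γ < 1/2 → ∃ Z : Set ℝ, dimH Z ≤ ENNReal.ofReal (2 * γ) ∧
        ∀ t : ℝ, t ∉ Z → ∀ k : κ, E k t ≠ 0 ∧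
          Tendsto (fun x : ℕ => ∏ p ∈ (Finset.range (x + 1)).filter (fun p => p.Prime ∧ ¬ p ∣ N k),
            ((P k p).eval ((p:ℂ) ^ (-(1 + (i k:ℂ)/2 + t * I))))⁻¹) atTop (𝓝 (E k t)) ∧
          (∃ C : ℝ, ∀ x : ℕ, 2 ≤ x →
            ‖(∏ p ∈ (Finset.range (x + 1)).filter (fun p => p.Prime ∧ ¬ p ∣ N k),
              ((P k p).eval ((p:ℂ) ^ (-(1 + (i k:ℂ)/2 + t * I))))⁻¹) - E k t‖ ≤
                C * Real.log x ^ (-γ)) ∧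
          ∀ M : ℝ, Tendsto (fun s : ℂ => ∏' p : {p : ℕ // p.Prime ∧ ¬ p ∣ N k},
              ((P k p).eval ((p:ℂ)^(-s)))⁻¹)
            (𝓝[{s : ℂ | 1 + (i k:ℝ)/2 < s.re ∧ |s.im - t| ≤ M * (s.re - (1 + (i k:ℝ)/2))}]
              (1 + (i k:ℂ)/2 + t * I)) (𝓝 (E k t))) ∧
      ∀ (n : ℕ) (e : Fin n → κ) (φ : (Fin n → ℂ) → ℂ) (l C : ℝ), 0 ≤ l →
        (∀ j, (b (e j) : ℝ) * l < 1) → ContinuousOn φ {z | ∀ j, z j ≠ 0} →
        (∀ z : Fin n → ℂ, (∀ j, z j ≠ 0) → ‖φ z‖ ≤ C * (1 + ∑ j, (‖z j‖ ^ l + ‖z j‖ ^ (-l)))) →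
        (∀ a c : ℝ, IntervalIntegrable (fun t => φ (fun j => E (e j) t)) volume a c) ∧
        ∃ m : ℂ, (∀ ε : ℝ, 0 < ε → ∃ T0 : ℝ, 0 < T0 ∧ ∀ T : ℝ, T0 ≤ T → ∀ a : ℝ,
            ‖(∫ t in a..(a + T), φ (fun j => E (e j) t)) / T - m‖ ≤ ε) ∧
          Tendsto (fun y : ℕ => ∫ θ in {θ : Nat.primesBelow (y + 1) → ℝ | ∀ p, θ p ∈ Set.Ioc (0:ℝ) 1},
            φ (fun j => ∏ p : Nat.primesBelow (y + 1), if (p:ℕ) ∣ N (e j) then 1 else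
              ((P (e j) p).eval (cexp (2 * Real.pi * θ p * I) *
                ((p:ℕ):ℂ) ^ (-(1 + (i (e j):ℂ)/2))))⁻¹)) atTop (𝓝 m) := by
  classical
  have h1 : ∀ k, ∃ E0 : Set ℝ, dimH E0 = 0 ∧ ∃ ℓ : ℝ → ℂ, ∀ t : ℝ, t ∉ E0 → ℓ t ≠ 0 ∧
      Tendsto (fun x : ℕ => ∏ p ∈ (Finset.range (x + 1)).filter (fun p => p.Prime ∧ ¬ p ∣ N k),
        ((P k p).eval ((p:ℂ)^(-(1 + (i k:ℂ)/2 + t * I))))⁻¹) atTop (𝓝 (ℓ t)) ∧
      ∀ M : ℝ, Tendsto (fun s : ℂ => ∏' p : {p : ℕ // p.Prime ∧ ¬ p ∣ N k},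
          ((P k p).eval ((p:ℂ)^(-s)))⁻¹)
        (𝓝[{s : ℂ | 1 + (i k:ℝ)/2 < s.re ∧ |s.im - t| ≤ M * (s.re - (1 + (i k:ℝ)/2))}]
          (1 + (i k:ℂ)/2 + t * I)) (𝓝 (ℓ t)) := by
    intro k
    obtain ⟨E0, hE0, hE⟩ := main (H k)
    choose! ℓ hℓ using hE
    exact ⟨E0, hE0, ℓ, hℓ⟩
  choose E0 hE0 ℓ hℓ using h1
  refine ⟨ℓ, ?_, ?_⟩
  · intro γ hγ0 hγ1
    have h2 : ∀ k, RateP (N k) (i k) (P k) γ := fun k => HR k γ hγ0 hγ1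
    unfold RateP at h2
    choose Z hZ hZ2 using h2
    refine ⟨⋃ k, (E0 k ∪ Z k), ?_, ?_⟩
    · rw [dimH_iUnion]
      apply iSup_le
      intro k
      rw [dimH_union, hE0 k]
      exact max_le bot_le (hZ k)
    · intro t ht k
      have ht1 : t ∉ E0 k ∧ t ∉ Z k := by
        simp only [Set.mem_iUnion, Set.mem_union, not_exists, not_or] at ht
        exact ht k
      obtain ⟨a1, a2, a3⟩ := hℓ k t ht1.1
      exact ⟨a1, a2, hZ2 k t ht1.2 (ℓ k t) a1 a2, a3⟩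
  · intro n e φ l C hl hbl hφ hgr
    have hEV : ∀ j, EV (N (e j)) (i (e j)) (P (e j)) (ℓ (e j)) := by
      intro j
      filter_upwards [ae_of_dimH (hE0 (e j))] with t ht
      obtain ⟨h1, h2, h3⟩ := hℓ (e j) t ht
      refine ⟨h1, h2, ?_⟩
      have h4 := h3 0
      have hmap : Tendsto (fun h : ℝ => (1 + (i (e j):ℂ)/2 + (h:ℂ) + t * I)) (𝓝[>] 0)
          (𝓝[{s : ℂ | 1 + (i (e j):ℝ)/2 < s.re ∧ |s.im - t| ≤ 0 * (s.re - (1 + (i (e j):ℝ)/2))}]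
            (1 + (i (e j):ℂ)/2 + t * I)) := by
        apply tendsto_nhdsWithin_of_tendsto_nhds_of_eventually_within
        · have hc : Continuous fun h : ℝ => (1 + (i (e j):ℂ)/2 + (h:ℂ) + t * I) := by fun_prop
          have h5 := (hc.tendsto 0).mono_left (nhdsWithin_le_nhds (s := Set.Ioi (0:ℝ)))
          simpa using h5
        · filter_upwards [self_mem_nhdsWithin] with h hh
          have hh' : 0 < h := hh
          refine ⟨?_, ?_⟩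
          · simpa using hh'
          · simp
      exact h4.comp hmap
    have hgr' : ∀ z : Fin n → ℂ, (∀ j, z j ≠ 0) → ‖φ z‖ ≤ |C| * (1 + gg l z) := by
      intro z hz
      refine (hgr z hz).trans ?_
      have hg := gg_nonneg l z
      unfold gg at hg ⊢
      exact mul_le_mul_of_nonneg_right (le_abs_self C) (by linarith)
    exact distribution (κ := Fin n) (N := fun j => N (e j)) (i := fun j => i (e j))
      (b := fun j => b (e j)) (P := fun j => P (e j)) (fun j => H (e j)) hEV hl (abs_nonneg C) hbl hφ hgr'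

end Pool.Agent.H5.EBJ
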